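import Mathlib

set_option autoImplicit false
set_option maxHeartbeats 400000

open Filter Topology Set

namespace Pool.Agent.Results.MP_e57dcf_an.NotDense

/-- weakly the same phase -/
def Same {n : ℕ} (x y : Fin n → ℝ) : Prop :=
  ∃ t : SignType, (t = 1 ∨ t = -1) ∧ ∀ k, x k * y k ≠ 0 → SignType.sign (x k) = t * SignType.sign (y k)

/-- weak phase retrieval -/
def Weak {n m : ℕ} (v : Fin m → Fin n → ℝ) : Prop :=
  ∀ x y : Fin n → ℝ, (∀ i, |x ⬝ᵥ v i| = |y ⬝ᵥ v i|) → Same x y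

/-- frames: spanning families -/
def Frame {n m : ℕ} (v : Fin m → Fin n → ℝ) : Prop := Submodule.span ℝ (range v) = ⊤

theorem normal {n : ℕ} (j : Fin (n + 1)) (w : Fin n → Fin (n + 1) → ℝ)
    (h : ∀ i k, |w i k - Pi.single (M := fun _ => ℝ) (j.succAbove i) 1 k| ≤ 1 / (2 * (n + 1))) :
    ∃ u : Fin (n + 1) → ℝ, (∀ i, u ⬝ᵥ w i = 0) ∧ u j ^ 2 = 1 ∧ ∀ k, k ≠ j → u k ^ 2 < 1 := by
  obtain ⟨u, hu, u0⟩ : ∃ u : Fin (n + 1) → ℝ, (Matrix.of w).mulVecLin u = 0 ∧ u ≠ 0 := by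
    have := LinearMap.ker_ne_bot_of_finrank_lt (f := (Matrix.of w).mulVecLin) (by simp)
    obtain ⟨u, a, b⟩ := Submodule.exists_mem_ne_zero_of_ne_bot this
    exact ⟨u, a, b⟩
  have p := norm_pos_iff.2 u0
  have o : ∀ i, u ⬝ᵥ w i = 0 := fun i => by rw [dotProduct_comm]; exact congrFun hu i
  have s : ∀ k, k ≠ j → |u k| ≤ ‖u‖ / 2 := fun k hk => by
    obtain ⟨i, rfl⟩ := Fin.exists_succAbove_eq hk
    have e : u (j.succAbove i) = -(u ⬝ᵥ (w i - Pi.single (j.succAbove i) 1)) := by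
      rw [dotProduct_sub, o]; simp
    rw [e, abs_neg, dotProduct]
    refine (Finset.abs_sum_le_sum_abs _ _).trans ((Finset.sum_le_card_nsmul _ _
      (‖u‖ * (1 / (2 * (n + 1)))) fun k _ => ?_).trans_eq ?_)
    · rw [abs_mul]; exact mul_le_mul (norm_le_pi_norm u k) (h i k) (abs_nonneg _) p.le
    · simp; field_simp
  have t : ‖u‖ ≤ |u j| := by
    by_contra! c
    refine lt_irrefl _ ((pi_norm_lt_iff p).2 fun k => ?_)
    by_cases hk : k = j
    · exact hk ▸ c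
    · exact (s k hk).trans_lt (by linarith)
  have j0 : u j ≠ 0 := abs_pos.1 (p.trans_le t)
  refine ⟨(u j)⁻¹ • u, fun i => by rw [smul_dotProduct, o, smul_zero], by simp [j0], fun k hk => ?_⟩
  rw [Pi.smul_apply, smul_eq_mul, inv_mul_eq_div, div_pow, div_lt_one (by positivity), sq_lt_sq]
  linarith [s k hk]

theorem result (n : ℕ) (hn : 2 ≤ n) : ∃ v : Fin (2 * n - 2) → Fin n → ℝ, Frame v ∧
    v ∉ closure {w : Fin (2 * n - 2) → Fin n → ℝ | Frame w ∧ Weak w} := by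
  obtain ⟨m, rfl⟩ : ∃ m, n = m + 1 + 1 := ⟨n - 2, by omega⟩
  have e : Fin (m + 1) ⊕ Fin (m + 1) ≃ Fin (2 * (m + 1 + 1) - 2) :=
    finSumFinEquiv.trans (finCongr (by omega))
  set f : Fin (m + 1) ⊕ Fin (m + 1) → Fin (m + 1 + 1) :=
    Sum.elim (0 : Fin _).succAbove (Fin.last _).succAbove with hf
  have l0 : (0 : Fin (m + 1 + 1)) ≠ Fin.last _ := (Fin.last_pos).ne
  refine ⟨fun i => Pi.single (f (e.symm i)) 1, ?_, fun h => ?_⟩
  · refine eq_top_iff.2 ((Pi.basisFun ℝ _).span_eq.ge.trans (Submodule.span_mono ?_))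
    rintro _ ⟨k, rfl⟩
    by_cases hk : k = 0
    · obtain ⟨i, hi⟩ := Fin.exists_succAbove_eq (hk ▸ l0 : k ≠ Fin.last _)
      exact ⟨e (.inr i), by simp only [Equiv.symm_apply_apply, hf, Sum.elim_inr, hi, Pi.basisFun_apply]⟩
    · obtain ⟨i, hi⟩ := Fin.exists_succAbove_eq hk
      exact ⟨e (.inl i), by simp only [Equiv.symm_apply_apply, hf, Sum.elim_inl, hi, Pi.basisFun_apply]⟩
  obtain ⟨w, ⟨-, hw⟩, d⟩ := Metric.mem_closure_iff.1 h (1 / (2 * ((m + 1 : ℕ) + 1))) (by positivity)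
  have c : ∀ i k, |w (e i) k - Pi.single (M := fun _ => ℝ) (f i) 1 k| ≤ 1 / (2 * ((m + 1 : ℕ) + 1)) :=
    fun i k => by
      have := (dist_le_pi_dist _ w (e i)).trans d.le
      replace := (dist_le_pi_dist _ (w (e i)) k).trans this
      rwa [dist_comm, Real.dist_eq, Equiv.symm_apply_apply] at this
  obtain ⟨u, u1, u2, u3⟩ := normal 0 (fun i => w (e (.inl i))) fun i => c (.inl i)
  obtain ⟨z, z1, z2, z3⟩ := normal (Fin.last _) (fun i => w (e (.inr i))) fun i => c (.inr i)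
  obtain ⟨t, ht, H⟩ := hw (u + z) (u - z) fun i => by
    obtain ⟨i, rfl⟩ := e.surjective i
    rcases i with i | i
    · rw [add_dotProduct, sub_dotProduct, u1, zero_add, zero_sub, abs_neg]
    · rw [add_dotProduct, sub_dotProduct, z1, add_zero, sub_zero]
  have a : 0 < (u + z) 0 * (u - z) 0 := by simp; nlinarith [z3 0 l0]
  have b : (u + z) (Fin.last _) * (u - z) (Fin.last _) < 0 := by simp; nlinarith [u3 _ l0.symm]
  have a' := H _ a.ne'
  have b' := H _ b.ne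
  rcases ht with rfl | rfl
  · rcases mul_neg_iff.1 b with ⟨x, y⟩ | ⟨x, y⟩ <;>
      simp only [sign_pos, sign_neg, x, y] at b' <;> exact absurd b' (by decide)
  · rcases mul_pos_iff.1 a with ⟨x, y⟩ | ⟨x, y⟩ <;>
      simp only [sign_pos, sign_neg, x, y] at a' <;> exact absurd a' (by decide)

end Pool.Agent.Results.MP_e57dcf_an.NotDense
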